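import Mathlib
import Pool.Agent.Q150.ClustLower

/-!
# Clustered 3-colouring of triangle-free apex graphs

For every `c` there is a triangle-free graph that is planar after deleting three vertices and has
no 3-colouring with clustering at most `c`.
-/

namespace Pool.Agent.Results.MP_01d970_co.ThreeApexFails

open Q150Clust

/-- `G` is `k`-apex: it becomes planar after deleting a set `A` of at most `k` vertices (such a
graph is a `(γ, k)`-apex graph for every `γ ≥ 0`, because planar graphs have Euler genus `0`). -/
def IsApex {V : Type} (k : ℕ) (G : SimpleGraph V) : Prop :=
  ∃ A : Finset V, A.card ≤ k ∧ Planar (G.induce {v | v ∉ A})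

/-- **Theorem** (the statement of Q1 is false). For every `k ≥ 3` and every integer `c` there is a
finite triangle-free `k`-apex graph such that every colouring of its vertices with three colours
has a monochromatic component with more than `c` vertices. -/
theorem result (k : ℕ) (hk : 3 ≤ k) (c : ℕ) :
    ∃ (V : Type) (_ : Fintype V) (G : SimpleGraph V), G.CliqueFree 3 ∧ IsApex k G ∧
      ∀ col : V → Fin 3, ∃ v : V, c < (monoComponent G col v).ncard := by
  refine ⟨Vtx (4 * (3 * c + 1)) ((2 * c + 1) * (c + 1)) (c + 1), inferInstance,
    Gr _ _ _, cliqueFree _ _ _, ⟨Finset.univ.image Sum.inl, ?_, planar_minus _ _ _⟩, ?_⟩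
  · refine Finset.card_image_le.trans ?_
    simpa using hk
  · intro col
    have := no_col (c := c) le_rfl le_rfl le_rfl col
    unfold HasClustering at this
    push Not at this
    exact this

end Pool.Agent.Results.MP_01d970_co.ThreeApexFails
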